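import Pool.Agent.Helper819.PW.If
import Pool.Agent.Helper367.PW.M1
import Pool.Agent.Helper367.PW.M1b
import Pool.Agent.Helper693.PW.MC

set_option autoImplicit false
set_option linter.unusedVariables false
set_option linter.unusedSectionVars false

/-! MP_dab459_al, module M5a (helper819 and job solvers): the structural step. -/

namespace PW.M5a

variable {N : ℕ}

theorem mainClaim {L : List (Z N)} {Lg : Finset (Fin N)} {π : Z N → ℕ} {B D κ : ℕ}
    (hG : Good L Lg π B) (u : FreeGroup (Fin N)) (ho : Orb u L) (hu : u ≠ 1) (hκ : u.norm ≤ κ)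
    (hF : NoFast L Lg π D) (h1 : NoS1 L Lg (B + 2 * D + 2 * κ))
    (h2 : NoS2 L Lg π (B + 2 * D + 2 * κ)) (h3 : NoS3 L Lg π κ) (hs : NoSlide L Lg π) :
    Lg = ∅ :=
  PW.mainClaim L Lg π B D κ u hu hκ ho hG hF h1 h2 h3 hs

-- turn_deg
section
theorem turn_deg {L : List (Z N)} {t : Z N × Z N} (h : t ∈ turns L) :
    0 < deg L t.1.1 ∧ 0 < deg L t.2.1 := by
  unfold turns at h
  have h' : (t.1, t.2) ∈ List.zip (L.map inv) (L.rotate 1) := h
  have h2 := List.of_mem_zip h'
  obtain ⟨ha, hb⟩ := h2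
  rw [List.mem_map] at ha
  rw [List.mem_rotate] at hb
  obtain ⟨x, hx, hx2⟩ := ha
  unfold deg
  refine ⟨List.countP_pos_iff.mpr ⟨x, hx, ?_⟩, List.countP_pos_iff.mpr ⟨t.2, hb, ?_⟩⟩
  · rw [← hx2]; simp
  · simp
end

-- exists_turn
section
theorem exists_turn {L : List (Z N)} {x : Z N} (h : 0 < deg L x.1) :
    ∃ t ∈ turns L, t.1 = x ∨ t.2 = x := by
  unfold deg at h
  rw [List.countP_pos_iff] at h
  obtain ⟨y, hy, hyx⟩ := h
  have hyx' : y.1 = x.1 := by simpa using hyx
  have hlen : (turns L).length = L.length := by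
    simp [turns]
  rcases eq_or_eq_inv hyx' with h1 | h1
  · subst h1
    have hm : y ∈ L.rotate 1 := by rw [List.mem_rotate]; exact hy
    obtain ⟨j, hj, hjx⟩ := List.mem_iff_getElem.mp hm
    have hj' : j < (turns L).length := by
      rw [hlen]; simpa using hj
    refine ⟨(turns L)[j], List.getElem_mem hj', Or.inr ?_⟩
    simp only [turns, List.getElem_zip]
    exact hjx
  · have hm : x ∈ L.map inv := by
      rw [List.mem_map]
      exact ⟨y, hy, by rw [h1, inv_inv]⟩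
    obtain ⟨j, hj, hjx⟩ := List.mem_iff_getElem.mp hm
    have hj' : j < (turns L).length := by
      rw [hlen]; simpa using hj
    refine ⟨(turns L)[j], List.getElem_mem hj', Or.inl ?_⟩
    simp only [turns, List.getElem_zip]
    exact hjx
end

-- tn_congr
theorem tn_congr {L : List (Z N)} {A A' C C' : Finset (Z N)}
    (hA : ∀ x : Z N, 0 < deg L x.1 → (x ∈ A ↔ x ∈ A'))
    (hC : ∀ x : Z N, 0 < deg L x.1 → (x ∈ C ↔ x ∈ C')) : tn L A C = tn L A' C' := by
  unfold tn
  apply List.countP_congr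
  intro t ht
  obtain ⟨h1, h2⟩ := turn_deg ht
  simp only [hA _ h1, hA _ h2, hC _ h1, hC _ h2]

-- tn_comm
section
theorem tn_comm (L : List (Z N)) (A C : Finset (Z N)) : tn L A C = tn L C A := by
  unfold tn
  apply List.countP_congr
  intro t _
  simp only [decide_eq_true_eq]
  exact or_comm
end

-- cap_split
section
theorem cap_split_count_cap_split {α : Type} (P Q R : α → Bool) (l : List α)
    (h : ∀ t ∈ l, (P t = true ↔ (Q t = true ∨ R t = true)) ∧ ¬(Q t = true ∧ R t = true)) :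
    l.countP P = l.countP Q + l.countP R := by
  induction l with
  | nil => rfl
  | cons a l ih =>
    rw [List.countP_cons, List.countP_cons, List.countP_cons,
      ih (fun t ht => h t (List.mem_cons_of_mem _ ht))]
    obtain ⟨h1, h2⟩ := h a (by simp)
    by_cases hQ : Q a = true <;> by_cases hR : R a = true
    · exact absurd ⟨hQ, hR⟩ h2
    · rw [if_pos (h1.2 (Or.inl hQ)), if_pos hQ, if_neg hR]; ring
    · rw [if_pos (h1.2 (Or.inr hR)), if_neg hQ, if_pos hR]; ring
    · have hP : ¬ P a = true := fun h => (h1.1 h).elim hQ hR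
      rw [if_neg hP, if_neg hQ, if_neg hR]; ring

theorem cap_split {L : List (Z N)} {π : Z N → ℕ} (hπ : ∀ t ∈ turns L, π t.1 = π t.2) (b : Z N)
    (A C : Finset (Z N)) (hA : ∀ x ∈ A, π x = π b) (hbA : b ∉ A) (hbC : b ∉ C)
    (hAC : Disjoint A C)
    (hcov : ∀ x : Z N, π x = π b → 0 < deg L x.1 → x = b ∨ x ∈ A ∨ x ∈ C) :
    cap L A = tn L A {b} + tn L A C := by
  unfold cap tn
  apply cap_split_count_cap_split
  intro t ht
  have hp := hπ t ht
  obtain ⟨hd1, hd2⟩ := turn_deg ht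
  have hAC' := Finset.disjoint_left.1 hAC
  simp only [decide_eq_true_eq, Finset.mem_compl, Finset.mem_singleton]
  constructor
  · constructor
    · rintro (⟨h1, h2⟩ | ⟨h1, h2⟩)
      · rcases hcov t.2 (by rw [← hp]; exact hA _ h1) hd2 with h3 | h3 | h3
        · exact Or.inl (Or.inl ⟨h1, h3⟩)
        · exact absurd h3 h2
        · exact Or.inr (Or.inl ⟨h1, h3⟩)
      · rcases hcov t.1 (by rw [hp]; exact hA _ h2) hd1 with h3 | h3 | h3
        · exact Or.inl (Or.inr ⟨h3, h2⟩)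
        · exact absurd h3 h1
        · exact Or.inr (Or.inr ⟨h3, h2⟩)
    · rintro ((⟨h1, h2⟩ | ⟨h1, h2⟩) | (⟨h1, h2⟩ | ⟨h1, h2⟩))
      · exact Or.inl ⟨h1, by rw [h2]; exact hbA⟩
      · exact Or.inr ⟨by rw [h1]; exact hbA, h2⟩
      · exact Or.inl ⟨h1, fun h => hAC' h h2⟩
      · exact Or.inr ⟨fun h => hAC' h h1, h2⟩
  · rintro ⟨(⟨h1, h2⟩ | ⟨h1, h2⟩), (⟨h3, h4⟩ | ⟨h3, h4⟩)⟩
    · rw [h2] at h4; exact hbC h4
    · exact hAC' h1 h3
    · rw [h1] at h3; exact hbA h3
    · rw [h1] at h3; exact hbC h3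
end

-- deg_eq_cap
section
theorem deg_eq_cap_aux_deg_eq_cap {α : Type} (l : List α) (p q r : α → Prop) [DecidablePred p] [DecidablePred q]
    [DecidablePred r] (h : ∀ x ∈ l, (r x ↔ p x ∨ q x) ∧ ¬ (p x ∧ q x)) :
    l.countP (fun x => r x) = l.countP (fun x => p x) + l.countP (fun x => q x) := by
  induction l with
  | nil => simp
  | cons a l ih =>
    have ih' := ih (fun x hx => h x (List.mem_cons_of_mem _ hx))
    obtain ⟨h1, h2⟩ := h a List.mem_cons_self
    simp only [List.countP_cons]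
    by_cases hp : p a
    · have hq : ¬ q a := fun hq => h2 ⟨hp, hq⟩
      have hr : r a := h1.2 (Or.inl hp)
      simp only [hp, hq, hr, decide_true, decide_false, if_true]
      simp
      omega
    · by_cases hq : q a
      · have hr : r a := h1.2 (Or.inr hq)
        simp only [hp, hq, hr, decide_true, decide_false, if_true]
        simp
        omega
      · have hr : ¬ r a := fun hr => (h1.1 hr).elim hp hq
        simp only [hp, hq, hr, decide_false]
        simp
        omega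

theorem deg_eq_cap {L : List (Z N)} (ht : Tight L) (b : Z N) : deg L b.1 = cap L {b} := by
  unfold deg cap tn
  have hlen : (L.map inv).length = (L.rotate 1).length := by simp
  have e1 : (turns L).countP (fun t => t.1 = b) = L.countP (fun x => x = inv b) := by
    have : (turns L).map Prod.fst = L.map inv := by
      unfold turns
      exact List.map_fst_zip (by simp)
    have h2 : (turns L).countP (fun t => t.1 = b) = ((turns L).map Prod.fst).countP (fun x => x = b) := by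
      rw [List.countP_map]; rfl
    rw [h2, this, List.countP_map]
    apply List.countP_congr
    intro x _
    simp only [Function.comp, decide_eq_true_eq]
    constructor
    · rintro h; rw [← h, inv_inv]
    · rintro h; rw [h, inv_inv]
  have e2 : (turns L).countP (fun t => t.2 = b) = L.countP (fun x => x = b) := by
    have : (turns L).map Prod.snd = L.rotate 1 := by
      unfold turns
      exact List.map_snd_zip (by simp)
    have h2 : (turns L).countP (fun t => t.2 = b) = ((turns L).map Prod.snd).countP (fun x => x = b) := by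
      rw [List.countP_map]; rfl
    rw [h2, this]
    exact (List.rotate_perm L 1).countP_eq _
  have e3 : L.countP (fun x => x.1 = b.1) = L.countP (fun x => x = b) + L.countP (fun x => x = inv b) := by
    apply deg_eq_cap_aux_deg_eq_cap
    intro x _
    constructor
    · constructor
      · intro h; exact eq_or_eq_inv h
      · rintro (h | h)
        · rw [h]
        · rw [h]; rfl
    · rintro ⟨h1, h2⟩
      exact inv_ne b (h2.symm.trans h1)
  have e4 := deg_eq_cap_aux_deg_eq_cap (turns L) (fun t => t.1 = b) (fun t => t.2 = b)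
    (fun t => (t.1 ∈ ({b} : Finset (Z N)) ∧ t.2 ∈ ({b} : Finset (Z N))ᶜ) ∨
      (t.1 ∈ ({b} : Finset (Z N))ᶜ ∧ t.2 ∈ ({b} : Finset (Z N)))) (by
      intro t htt
      have hne := ht t htt
      simp only [Finset.mem_singleton, Finset.mem_compl]
      constructor
      · constructor
        · rintro (⟨h, _⟩ | ⟨_, h⟩)
          · exact Or.inl h
          · exact Or.inr h
        · rintro (h | h)
          · exact Or.inl ⟨h, fun h2 => hne (h.trans h2.symm)⟩
          · exact Or.inr ⟨fun h2 => hne (h2.trans h.symm), h⟩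
      · rintro ⟨h1, h2⟩
        exact hne (h1.trans h2.symm))
  rw [e3, ← e1, ← e2, add_comm]
  exact e4.symm
end

-- deg_split
section
theorem countP_split_aux_deg_split {α : Type*} (l : List α) (P Q R : α → Bool)
    (h : ∀ t ∈ l, (P t = true ↔ (Q t = true ∨ R t = true)) ∧ ¬ (Q t = true ∧ R t = true)) :
    l.countP P = l.countP Q + l.countP R := by
  induction l with
  | nil => simp
  | cons a l ih =>
    have ih' := ih (fun t ht => h t (List.mem_cons_of_mem _ ht))
    have ha := h a List.mem_cons_self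
    simp only [List.countP_cons]
    rw [ih']
    cases hP : P a <;> cases hQ : Q a <;> cases hR : R a <;> simp_all <;> omega

theorem deg_split {L : List (Z N)} (ht : Tight L) {π : Z N → ℕ}
    (hπ : ∀ t ∈ turns L, π t.1 = π t.2) (b : Z N)
    (A C : Finset (Z N)) (hbA : b ∉ A) (hbC : b ∉ C) (hAC : Disjoint A C)
    (hcov : ∀ x : Z N, π x = π b → 0 < deg L x.1 → x = b ∨ x ∈ A ∨ x ∈ C) :
    deg L b.1 = tn L A {b} + tn L C {b} := by
  rw [deg_eq_cap ht b]
  unfold cap tn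
  apply countP_split_aux_deg_split
  intro t htm
  have h1 := ht t htm
  have h2 := hπ t htm
  have h3 := turn_deg htm
  have hd : ∀ x, x ∈ A → x ∈ C → False := fun x hx hy => Finset.disjoint_left.1 hAC hx hy
  obtain ⟨x, y⟩ := t
  simp only at h1 h2 h3
  simp only [decide_eq_true_eq, Finset.mem_singleton, Finset.mem_compl]
  have cx := hcov x
  have cy := hcov y
  constructor
  · constructor
    · rintro (⟨hx, hy⟩ | ⟨hx, hy⟩)
      · subst hx
        rcases cy h2.symm h3.2 with h | h | h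
        · exact absurd h hy
        · exact Or.inl (Or.inr ⟨rfl, h⟩)
        · exact Or.inr (Or.inr ⟨rfl, h⟩)
      · subst hy
        rcases cx h2 h3.1 with h | h | h
        · exact absurd h hx
        · exact Or.inl (Or.inl ⟨h, rfl⟩)
        · exact Or.inr (Or.inl ⟨h, rfl⟩)
    · rintro ((⟨hx, hy⟩ | ⟨hx, hy⟩) | (⟨hx, hy⟩ | ⟨hx, hy⟩))
      · exact Or.inr ⟨fun h => hbA (h ▸ hx), hy⟩
      · exact Or.inl ⟨hx, fun h => hbA (h ▸ hy)⟩
      · exact Or.inr ⟨fun h => hbC (h ▸ hx), hy⟩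
      · exact Or.inl ⟨hx, fun h => hbC (h ▸ hy)⟩
  · rintro ⟨(⟨hx, hy⟩ | ⟨hx, hy⟩), (⟨hx', hy'⟩ | ⟨hx', hy'⟩)⟩
    · exact hd _ hx hx'
    · exact hbA (hx' ▸ hx)
    · exact hbA (hy' ▸ hy)
    · exact hd _ hy hy'
end

-- blow_cap
section
theorem blow_cap_aux_blow_cap (A C : Finset (Z N)) (e : Z N) (hC : ∀ x ∈ C, x.1 ≠ e.1)
    (hd : Disjoint A C) (l : List (Z N × Z N)) :
    (l.flatMap (bt A e)).countP (fun t => (t.1 ∈ C ∧ t.2 ∈ Cᶜ) ∨ (t.1 ∈ Cᶜ ∧ t.2 ∈ C)) =
      l.countP (fun t => (t.1 ∈ C ∧ t.2 ∈ Cᶜ) ∨ (t.1 ∈ Cᶜ ∧ t.2 ∈ C)) := by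
  have he : e ∉ C := fun h => hC e h rfl
  have hie : inv e ∉ C := fun h => hC _ h rfl
  have hAC : ∀ x, x ∈ A → x ∉ C := fun x hx hx' => Finset.disjoint_left.1 hd hx hx'
  induction l with
  | nil => rfl
  | cons t l ih =>
    rw [List.flatMap_cons, List.countP_append, ih]
    have h : (t :: l) = [t] ++ l := rfl
    rw [h, List.countP_append]
    congr 1
    unfold bt
    by_cases h1 : t.1 ∈ A
    · have h1' := hAC _ h1
      by_cases h2 : t.2 ∈ A
      · rw [if_pos h1, if_pos h2]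
      · rw [if_pos h1, if_neg h2]
        by_cases h3 : t.2 ∈ C
        · simp [List.countP_cons, h1', he, hie, h3]
        · simp [List.countP_cons, h1', he, hie, h3]
    · by_cases h2 : t.2 ∈ A
      · have h2' := hAC _ h2
        rw [if_neg h1, if_pos h2]
        by_cases h3 : t.1 ∈ C
        · simp [List.countP_cons, h2', he, hie, h3]
        · simp [List.countP_cons, h2', he, hie, h3]
      · rw [if_neg h1, if_neg h2]

theorem blow_cap (A C : Finset (Z N)) (e : Z N) (L : List (Z N)) (hC : ∀ x ∈ C, x.1 ≠ e.1)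
    (hd : Disjoint A C) : cap (blow A e L) C = cap L C := by
  unfold cap tn
  rw [turns_blow]
  exact blow_cap_aux_blow_cap A C e hC hd (turns L)
end

-- deg_zero_iff
section
theorem deg_zero_iff {L : List (Z N)} {i : Fin N} : deg L i = 0 ↔ ∀ x ∈ L, x.1 ≠ i := by
  unfold deg
  rw [List.countP_eq_zero]
  simp
end

-- length_eq_sum_deg
section
theorem length_eq_sum_deg (L : List (Z N)) : L.length = ∑ i : Fin N, deg L i := by
  induction L with
  | nil => simp [deg]
  | cons x L ih =>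
    have h1 : ∀ i : Fin N, deg (x :: L) i = deg L i + if x.1 = i then 1 else 0 := by
      intro i
      unfold deg
      rw [List.countP_cons]
      simp
    rw [List.length_cons, ih, Finset.sum_congr rfl fun i _ => h1 i, Finset.sum_add_distrib,
      Finset.sum_ite_eq]
    simp
end

-- ms1_erase
section
theorem ms1_erase {Lg : Finset (Fin N)} (π : Z N → ℕ) {i : Fin N} (hi : i ∈ Lg) :
    ms1 (Lg.erase i) π < ms1 Lg π := by
  have h1 : (Lg.erase i).card + 1 = Lg.card := Finset.card_erase_add_one hi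
  have h2 : Vl Lg π ⊆ insert (π (i, true)) (Vl (Lg.erase i) π) := by
    intro x hx
    unfold Vl at hx ⊢
    rw [Finset.mem_image] at hx
    obtain ⟨j, hj, rfl⟩ := hx
    rw [Finset.mem_insert]
    by_cases hji : j = i
    · left; rw [hji]
    · right
      exact Finset.mem_image_of_mem _ (Finset.mem_erase.mpr ⟨hji, hj⟩)
  have h3 : (Vl Lg π).card ≤ (Vl (Lg.erase i) π).card + 1 :=
    (Finset.card_le_card h2).trans (Finset.card_insert_le _ _)
  have h4 : (Vl Lg π).card ≤ Lg.card := Finset.card_image_le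
  have h5 : (Vl (Lg.erase i) π).card ≤ (Lg.erase i).card := Finset.card_image_le
  unfold ms1
  omega
end

-- ms1_bpi
section
theorem ms1_bpi {Lg : Finset (Fin N)} {π : Z N → ℕ} {A : Finset (Z N)} {e : Z N} {p q : ℕ}
    (heL : e.1 ∉ Lg) (hp : ∀ x ∈ A, π x = p) (hcl : Closed Lg A) (hin : ∃ x ∈ A, x.1 ∈ Lg)
    (hout : ∃ x, x ∉ A ∧ π x = p ∧ x.1 ∈ Lg) (hloop : ∀ i ∈ Lg, π (i, true) = π (i, false))
    (hq : ∀ x, π x ≠ q) : ms1 Lg (bpi π A e p q) < ms1 Lg π := by
  have hkeep : ∀ i ∈ Lg, (i, true) ∉ A → bpi π A e p q (i, true) = π (i, true) := by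
    intro i hi hiA
    unfold bpi
    rw [if_neg, if_neg]
    · intro h
      exact heL (by rw [← h]; exact hi)
    · rintro (h | h)
      · exact hiA h
      · have h2 := congrArg Prod.fst h
        rw [inv_fst] at h2
        exact heL (by rw [← h2]; exact hi)
  have hsub : insert q (Vl Lg π) ⊆ Vl Lg (bpi π A e p q) := by
    intro c hc
    rw [Finset.mem_insert] at hc
    rcases hc with rfl | hc
    · obtain ⟨x, hxA, hxL⟩ := hin
      have hx1 : (x.1, true) ∈ A := by
        rcases x with ⟨i, b⟩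
        cases b
        · exact hcl _ hxA hxL
        · exact hxA
      unfold Vl
      rw [Finset.mem_image]
      refine ⟨x.1, hxL, ?_⟩
      unfold bpi
      rw [if_pos (Or.inl hx1)]
    · unfold Vl at hc ⊢
      rw [Finset.mem_image] at hc ⊢
      obtain ⟨i, hi, rfl⟩ := hc
      by_cases hiA : (i, true) ∈ A
      · obtain ⟨x, hxA, hxp, hxL⟩ := hout
        have hx1 : (x.1, true) ∉ A := by
          rcases x with ⟨j, b⟩
          cases b
          · intro h
            exact hxA (hcl _ h hxL)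
          · exact hxA
        have hx2 : π (x.1, true) = p := by
          rcases x with ⟨j, b⟩
          cases b
          · rw [← hxp]; exact hloop j hxL
          · exact hxp
        refine ⟨x.1, hxL, ?_⟩
        rw [hkeep x.1 hxL hx1, hx2, hp _ hiA]
      · exact ⟨i, hi, hkeep i hi hiA⟩
  have hqn : q ∉ Vl Lg π := by
    unfold Vl
    rw [Finset.mem_image]
    rintro ⟨i, _, hi⟩
    exact hq _ hi
  have h1 := Finset.card_le_card hsub
  rw [Finset.card_insert_of_notMem hqn] at h1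
  have h2 : (Vl Lg (bpi π A e p q)).card ≤ Lg.card := Finset.card_image_le
  unfold ms1
  omega
end

-- ms1_retract
section
theorem ms1_retract {Lg : Finset (Fin N)} {π π' : Z N → ℕ} (f : ℕ → ℕ)
    (hf : ∀ i ∈ Lg, f (π' (i, true)) = π (i, true)) : ms1 Lg π' ≤ ms1 Lg π := by
  have h1 : Vl Lg π ⊆ (Vl Lg π').image f := by
    intro y hy
    obtain ⟨i, hi, rfl⟩ := Finset.mem_image.1 hy
    exact Finset.mem_image.2 ⟨π' (i, true), Finset.mem_image.2 ⟨i, hi, rfl⟩, hf i hi⟩
  have h2 : (Vl Lg π).card ≤ (Vl Lg π').card :=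
    (Finset.card_le_card h1).trans Finset.card_image_le
  unfold ms1
  omega
end

-- ms1_emb
section
theorem ms1_emb (Lg : Finset (Fin N)) (π : Z N → ℕ) :
    ms1 (Lg.map Fin.castSuccEmb) (embP π) = ms1 Lg π := by
  have hV : Vl (Lg.map Fin.castSuccEmb) (embP π) = Vl Lg π := by
    unfold Vl
    ext v
    simp only [Finset.mem_image, Finset.mem_map]
    constructor
    · rintro ⟨i, ⟨j, hj, rfl⟩, rfl⟩
      refine ⟨j, hj, ?_⟩
      simp [embP, Fin.castSuccEmb]
    · rintro ⟨j, hj, rfl⟩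
      refine ⟨Fin.castSuccEmb j, ⟨j, hj, rfl⟩, ?_⟩
      simp [embP, Fin.castSuccEmb]
  unfold ms1
  rw [hV, Finset.card_map]
end

-- ms2_emb
section
theorem ms2_emb (L : List (Z N)) (Lg : Finset (Fin N)) :
    ms2 (embL L) (Lg.map Fin.castSuccEmb) = ms2 L Lg := by
  unfold ms2
  rw [Finset.sum_filter, Finset.sum_filter, Fin.sum_univ_castSucc]
  rw [deg_embL_last]
  simp only [deg_embL, Finset.mem_map, Fin.coe_castSuccEmb, lt_irrefl, and_false, if_false,
    add_zero]
  refine Finset.sum_congr rfl (fun i _ => ?_)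
  have h : (∃ a ∈ Lg, a.castSucc = i.castSucc) ↔ i ∈ Lg := by
    constructor
    · rintro ⟨a, ha, hai⟩
      rw [Fin.castSucc_inj] at hai
      rwa [← hai]
    · intro hi
      exact ⟨i, hi, rfl⟩
  simp only [h]
end

-- ms2_S3
section
theorem j33726_split_ms2_S3 (g : Fin N → ℕ) (b e f : Fin N) (hbe : b ≠ e) (hbf : b ≠ f) (hef : e ≠ f) :
    ∑ i, g i = g b + (g e + (g f + ∑ i ∈ ((Finset.univ.erase b).erase e).erase f, g i)) := by
  rw [← Finset.add_sum_erase Finset.univ g (Finset.mem_univ b),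
    ← Finset.add_sum_erase (Finset.univ.erase b) g
      (Finset.mem_erase.mpr ⟨Ne.symm hbe, Finset.mem_univ e⟩),
    ← Finset.add_sum_erase ((Finset.univ.erase b).erase e) g
      (Finset.mem_erase.mpr ⟨Ne.symm hef, Finset.mem_erase.mpr ⟨Ne.symm hbf, Finset.mem_univ f⟩⟩)]

theorem ms2_S3 {L L₁ : List (Z N)} {Lg : Finset (Fin N)} (b e f : Fin N) (hbe : b ≠ e)
    (hbf : b ≠ f) (hef : e ≠ f) (hb : b ∉ Lg) (he : e ∉ Lg) (hf : f ∉ Lg)
    (hLe : deg L e = 0) (hLf : deg L f = 0) (hb1 : deg L₁ b = 0) (he1 : deg L₁ e < deg L b)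
    (hf1 : deg L₁ f < deg L b)
    (ho : ∀ i, i ≠ b → i ≠ e → i ≠ f → deg L₁ i = deg L i) : ms2 L₁ Lg < ms2 L Lg := by
  unfold ms2
  rw [Finset.sum_filter, Finset.sum_filter, j33726_split_ms2_S3 _ b e f hbe hbf hef,
    j33726_split_ms2_S3 (fun i => if i ∉ Lg ∧ 0 < deg L i then 3 ^ deg L i else 0) b e f hbe hbf hef]
  have hR : ∑ i ∈ ((Finset.univ.erase b).erase e).erase f,
      (if i ∉ Lg ∧ 0 < deg L₁ i then 3 ^ deg L₁ i else 0) =
      ∑ i ∈ ((Finset.univ.erase b).erase e).erase f,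
        (if i ∉ Lg ∧ 0 < deg L i then 3 ^ deg L i else 0) := by
    refine Finset.sum_congr rfl fun i hi => ?_
    simp only [Finset.mem_erase, Finset.mem_univ, and_true] at hi
    rw [ho i hi.2.2 hi.2.1 hi.1]
  rw [hR]
  have hn : 0 < deg L b := by omega
  obtain ⟨n, hn'⟩ : ∃ n, deg L b = n + 1 := ⟨deg L b - 1, by omega⟩
  have hb0 : (if b ∉ Lg ∧ 0 < deg L₁ b then 3 ^ deg L₁ b else 0) = 0 := by simp [hb1]
  have hbL : (if b ∉ Lg ∧ 0 < deg L b then 3 ^ deg L b else 0) = 3 ^ (n + 1) := by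
    rw [if_pos ⟨hb, hn⟩, hn']
  have hpow : ∀ d : ℕ, d < deg L b → 3 ^ d ≤ 3 ^ n := fun d hd =>
    Nat.pow_le_pow_right (by norm_num) (by omega)
  have he2 : (if e ∉ Lg ∧ 0 < deg L₁ e then 3 ^ deg L₁ e else 0) ≤ 3 ^ n := by
    split_ifs
    · exact hpow _ he1
    · exact Nat.zero_le _
  have hf2 : (if f ∉ Lg ∧ 0 < deg L₁ f then 3 ^ deg L₁ f else 0) ≤ 3 ^ n := by
    split_ifs
    · exact hpow _ hf1
    · exact Nat.zero_le _
  have h3 : 0 < 3 ^ n := by positivity
  have h4 : 3 ^ (n + 1) = 3 * 3 ^ n := by ring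
  simp only [hb0, hbL]
  omega
end

-- ms2_congr
section
theorem ms2_congr {L L₁ : List (Z N)} {Lg : Finset (Fin N)}
    (h : ∀ i, i ∉ Lg → deg L₁ i = deg L i) : ms2 L₁ Lg = ms2 L Lg := by
  unfold ms2
  refine Finset.sum_congr ?_ ?_
  · ext i
    simp only [Finset.mem_filter, Finset.mem_univ, true_and]
    constructor
    · rintro ⟨h1, h2⟩
      exact ⟨h1, by rw [← h i h1]; exact h2⟩
    · rintro ⟨h1, h2⟩
      exact ⟨h1, by rw [h i h1]; exact h2⟩
  · intro i hi
    simp only [Finset.mem_filter, Finset.mem_univ, true_and] at hi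
    rw [h i hi.1]
end

-- ms2_le
section
theorem ms2_le {L : List (Z N)} {Lg : Finset (Fin N)} {B : ℕ}
    (h : ∀ i, i ∉ Lg → deg L i ≤ B) : ms2 L Lg ≤ N * 3 ^ B := by
  unfold ms2
  have h1 := Finset.sum_le_card_nsmul (Finset.univ.filter (fun i : Fin N => i ∉ Lg ∧ 0 < deg L i))
    (fun i => 3 ^ deg L i) (3 ^ B) (fun i hi => by
      rw [Finset.mem_filter] at hi
      exact Nat.pow_le_pow_right (by norm_num) (h i hi.2.1))
  have h2 : (Finset.univ.filter (fun i : Fin N => i ∉ Lg ∧ 0 < deg L i)).card ≤ N := by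
    refine (Finset.card_filter_le _ _).trans ?_
    rw [Finset.card_univ, Fintype.card_fin]
  refine h1.trans ?_
  rw [smul_eq_mul]
  exact Nat.mul_le_mul_right _ h2
end

-- ms1_le
section
theorem ms1_le {r B : ℕ} {L : List (Z N)} {Lg : Finset (Fin N)} {π : Z N → ℕ}
    (h : Sta r B L Lg π) : ms1 Lg π ≤ 2 * r := by
  have h1 := h.card
  unfold ms1
  omega
end

-- aut_empty
section
theorem aut_empty (e : Z N) (w : FreeGroup (Fin N)) : aut ∅ e w = w := by
  have h : aut ∅ e = MonoidHom.id (FreeGroup (Fin N)) := by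
    apply FreeGroup.ext_hom
    intro i
    unfold aut
    rw [FreeGroup.lift_apply_of]
    by_cases hi : i = e.1
    · rw [if_pos hi]; rfl
    · simp [hi]
  rw [h]
  rfl
end

-- Rel_of1
section
theorem Rel_of1 {L₁ L : List (Z N)} {A : Finset (Z N)} {e : Z N}
    (h : IsConj (FreeGroup.mk L₁) (aut A e (FreeGroup.mk L))) : Rel L₁ L := by
  refine ⟨A, ∅, ∅, e, e, e, ?_⟩
  rw [aut_empty, aut_empty]
  exact h
end

-- Rel_of3
theorem Rel_of3 {L₃ L₂ L₁ L : List (Z N)} {A₁ A₂ A₃ : Finset (Z N)} {e₁ e₂ e₃ : Z N}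
    (h1 : IsConj (FreeGroup.mk L₁) (aut A₁ e₁ (FreeGroup.mk L)))
    (h2 : IsConj (FreeGroup.mk L₂) (aut A₂ e₂ (FreeGroup.mk L₁)))
    (h3 : IsConj (FreeGroup.mk L₃) (aut A₃ e₃ (FreeGroup.mk L₂))) : Rel L₃ L :=
  ⟨A₁, A₂, A₃, e₁, e₂, e₃, h3.trans ((aut A₃ e₃).map_isConj (h2.trans ((aut A₂ e₂).map_isConj h1)))⟩

-- Rel_refl
section
theorem Rel_refl (e : Z N) (L : List (Z N)) : Rel L L := by
  refine ⟨∅, ∅, ∅, e, e, e, ?_⟩
  rw [aut_empty, aut_empty, aut_empty]
end

-- Rel_fin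
section
theorem Rel_fin (N : ℕ) : ∃ S : Set (FreeGroup (Fin N) ≃* FreeGroup (Fin N)), S.Finite ∧
    ∀ L₁ L : List (Z N), Rel L₁ L →
      ∃ φ ∈ S, IsConj (FreeGroup.mk L) (φ (FreeGroup.mk L₁)) := by
  classical
  refine ⟨Set.range (fun p : (Finset (Z N) × Z N) × (Finset (Z N) × Z N) × (Finset (Z N) × Z N) =>
    ((autE p.1.1 p.1.2).trans ((autE p.2.1.1 p.2.1.2).trans (autE p.2.2.1 p.2.2.2))).symm),
    Set.finite_range _, ?_⟩
  rintro L₁ L ⟨A₁, A₂, A₃, e₁, e₂, e₃, h⟩
  refine ⟨_, ⟨((A₁, e₁), (A₂, e₂), (A₃, e₃)), rfl⟩, ?_⟩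
  set ψ := (autE A₁ e₁).trans ((autE A₂ e₂).trans (autE A₃ e₃)) with hψ
  have h1 : IsConj (FreeGroup.mk L₁) (ψ (FreeGroup.mk L)) := h
  have h2 := ψ.symm.toMonoidHom.map_isConj h1
  have h3 : ψ.symm.toMonoidHom (ψ (FreeGroup.mk L)) = FreeGroup.mk L := ψ.symm_apply_apply _
  rw [h3] at h2
  exact h2.symm
end

-- small_len
section
theorem small_len {r B : ℕ} {L : List (Z N)} {π : Z N → ℕ} (h : Sta r B L ∅ π) :
    L.length ≤ N * B := by
  rw [length_eq_sum_deg]
  have h1 : ∑ i : Fin N, deg L i ≤ ∑ _i : Fin N, B :=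
    Finset.sum_le_sum fun i _ => h.good.small i (Finset.notMem_empty i)
  refine h1.trans (le_of_eq ?_)
  rw [Finset.sum_const, Finset.card_univ, Fintype.card_fin, smul_eq_mul]
end

-- Sta_slide
theorem Sta_slide {r B : ℕ} {L L₀ : List (Z N)} {Lg : Finset (Fin N)} {π : Z N → ℕ}
    (h : Sta r B L Lg π) (hG : Good L₀ Lg π B) (hd : ∀ i, i ∉ Lg → deg L₀ i = deg L i) :
    Sta r B L₀ Lg π ∧ ms2 L₀ Lg = ms2 L Lg := by
  refine ⟨⟨hG, h.card, ?_, h.bd⟩, ms2_congr hd⟩
  obtain ⟨e, he, hd0⟩ := h.free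
  exact ⟨e, he, by rw [hd e he, hd0]⟩

-- Sta_init
section
theorem Sta_init (r : ℕ) (hr : 1 ≤ r) (L : List (Z (r + 1))) (hL : L ≠ []) (ht : Tight L)
    (hlast : ∀ x ∈ L, x.1 ≠ Fin.last r) :
    Sta r 0 L (Finset.univ.erase (Fin.last r)) (fun _ => 0) := by
  have h0 : deg L (Fin.last r) = 0 := deg_zero_iff.2 hlast
  refine ⟨⟨hL, ht, fun _ _ => rfl, fun _ _ => rfl, ?_⟩, ?_, ⟨Fin.last r, by simp, h0⟩, ?_⟩
  · intro i hi
    have : i = Fin.last r := by
      by_contra hne
      exact hi (by simp [hne])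
    rw [this, h0]
  · rw [Finset.card_erase_of_mem (Finset.mem_univ _)]
    simp
  · intro x
    show 0 < 2 * (r + 1)
    omega
end

-- S1_gen
section
theorem S1_gen {L : List (Z N)} {Lg : Finset (Fin N)} {π : Z N → ℕ} {B K : ℕ}
    (hG : Good L Lg π B) (hBK : B ≤ K) {i : Fin N} (hd : deg L i ≤ K) :
    Good L (Lg.erase i) π K := by
  refine ⟨hG.ne, hG.tight, hG.path, fun j hj => hG.loop j (Finset.mem_of_mem_erase hj), ?_⟩
  intro j hj
  by_cases hji : j = i
  · rw [hji]; exact hd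
  · have : j ∉ Lg := fun h => hj (Finset.mem_erase.mpr ⟨hji, h⟩)
    exact le_trans (hG.small j this) hBK
end

-- S2_gen
section
theorem S2_gen {u : FreeGroup (Fin N)} {L : List (Z N)} {Lg : Finset (Fin N)} {π : Z N → ℕ}
    {B K : ℕ} (hG : Good L Lg π B) (ho : Orb u L) (hBK : B ≤ K) (e : Fin N) (he : e ∉ Lg)
    (hLe : deg L e = 0) (p q : ℕ) (A : Finset (Z N)) (hA : ∀ x ∈ A, π x = p)
    (hAe : ∀ x ∈ A, x.1 ≠ e) (hcl : Closed Lg A) (hin : ∃ x ∈ A, x.1 ∈ Lg)
    (hout : ∃ x, x ∉ A ∧ π x = p ∧ x.1 ∈ Lg) (hcap : cap L A ≤ K) (hq : ∀ x, π x ≠ q) :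
    Good (blow A (e, true) L) Lg (bpi π A (e, true) p q) K ∧ Orb u (blow A (e, true) L) ∧
      ms1 Lg (bpi π A (e, true) p q) < ms1 Lg π ∧ Rel (blow A (e, true) L) L ∧
      (blow A (e, true) L).length ≤ L.length + K ∧
      (∀ i, i ≠ e → deg (blow A (e, true) L) i = deg L i) ∧
      (∀ x, bpi π A (e, true) p q x = q ∨ ∃ y, bpi π A (e, true) p q x = π y) := by
  have he' : ∀ x ∈ L, x.1 ≠ ((e, true) : Z N).1 := deg_zero_iff.1 hLe
  refine ⟨blow_good hG A (e, true) he' hAe he p q hA hcl K hBK hcap,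
    blow_orb ho A (e, true) he',
    ms1_bpi (e := (e, true)) he hA hcl hin hout hG.loop hq,
    Rel_of1 (blow_conj A (e, true) L he'), ?_,
    fun i hi => blow_deg_other A (e, true) L i hi, ?_⟩
  · rw [blow_length]
    omega
  · intro x
    obtain ⟨x0, _, hx0, _⟩ := hout
    unfold bpi
    by_cases h1 : x ∈ A ∨ x = inv (e, true)
    · left; rw [if_pos h1]
    · right
      rw [if_neg h1]
      by_cases h2 : x = (e, true)
      · exact ⟨x0, by rw [if_pos h2, hx0]⟩
      · exact ⟨x, by rw [if_neg h2]⟩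
end


structure S3H (L : List (Z N)) (Lg : Finset (Fin N)) (π : Z N → ℕ) (B : ℕ) (b : Z N)
    (A C : Finset (Z N)) (e f : Fin N) (q₁ q₂ κ : ℕ) : Prop where
  good : Good L Lg π B
  hb : b.1 ∉ Lg
  he : e ∉ Lg
  hf : f ∉ Lg
  hef : e ≠ f
  hLe : deg L e = 0
  hLf : deg L f = 0
  hA : ∀ x ∈ A, π x = π b
  hC : ∀ x ∈ C, π x = π b
  hbA : b ∉ A
  hbC : b ∉ C
  hAC : Disjoint A C
  hAe : ∀ x ∈ A, x.1 ≠ e ∧ x.1 ≠ f
  hCe : ∀ x ∈ C, x.1 ≠ e ∧ x.1 ≠ f
  hcA : Closed Lg A
  hcC : Closed Lg C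
  hcov : ∀ x, π x = π b → (0 < deg L x.1 ∨ x.1 ∈ Lg) → x = b ∨ x ∈ A ∨ x ∈ C
  hk : tn L A C ≤ κ
  h1 : tn L A C < tn L A {b}
  h2 : tn L A C < tn L C {b}
  hq₁ : ∀ x, π x ≠ q₁
  hq₂ : ∀ x, π x ≠ q₂
  hq : q₁ ≠ q₂

/-- the list after the move S3 -/
def s3L (A C : Finset (Z N)) (b : Z N) (e f : Fin N) (L : List (Z N)) : List (Z N) :=
  coll b.1 (blow C (f, true) (blow A (e, true) L))

/-- the classes before the final collapse in the move S3 -/
def s3Q (π : Z N → ℕ) (A C : Finset (Z N)) (b : Z N) (e f : Fin N) (q₁ q₂ : ℕ) : Z N → ℕ :=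
  bpi (bpi π A (e, true) (π b) q₁) C (f, true) (π b) q₂

/-- the classes after the move S3 -/
def s3P (π : Z N → ℕ) (A C : Finset (Z N)) (b : Z N) (e f : Fin N) (q₁ q₂ : ℕ) : Z N → ℕ :=
  cpi (s3Q π A C b e f q₁ q₂) (inv b)

-- S3_degs
section
theorem S3_degs {L : List (Z N)} {Lg : Finset (Fin N)} {π : Z N → ℕ} {B : ℕ} {b : Z N}
    {A C : Finset (Z N)} {e f : Fin N} {q₁ q₂ κ : ℕ} (h : S3H L Lg π B b A C e f q₁ q₂ κ) :
    cap L A = tn L A {b} + tn L A C ∧ cap L C = tn L C {b} + tn L A C ∧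
      deg L b.1 = tn L A {b} + tn L C {b} ∧ 0 < deg L b.1 ∧ b.1 ≠ e ∧ b.1 ≠ f ∧
      cap L A < deg L b.1 ∧ cap L C < deg L b.1 ∧ deg L b.1 ≤ B ∧
      cap (blow A (e, true) L) C = cap L C := by
  have hc := fun (x : Z N) (hx : π x = π b) (hd : 0 < deg L x.1) => h.hcov x hx (Or.inl hd)
  have c1 := cap_split h.good.path b A C h.hA h.hbA h.hbC h.hAC hc
  have c2 := cap_split h.good.path b C A h.hC h.hbC h.hbA h.hAC.symm (fun x hx hd => by
    rcases hc x hx hd with a | a | a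
    · exact Or.inl a
    · exact Or.inr (Or.inr a)
    · exact Or.inr (Or.inl a))
  rw [tn_comm L C A] at c2
  have c3 := deg_split h.good.tight h.good.path b A C h.hbA h.hbC h.hAC hc
  have g1 := h.h1
  have g2 := h.h2
  have hpos : 0 < deg L b.1 := by omega
  refine ⟨c1, c2, c3, hpos, ?_, ?_, by omega, by omega, h.good.small _ h.hb,
    blow_cap A C (e, true) L (fun x hx => (h.hCe x hx).1) h.hAC⟩
  · intro hh
    have := h.hLe
    rw [← hh] at this
    omega
  · intro hh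
    have := h.hLf
    rw [← hh] at this
    omega
end

-- S3_good2
section
theorem S3_good2 {L : List (Z N)} {Lg : Finset (Fin N)} {π : Z N → ℕ} {B : ℕ} {b : Z N}
    {A C : Finset (Z N)} {e f : Fin N} {q₁ q₂ κ : ℕ} (h : S3H L Lg π B b A C e f q₁ q₂ κ) :
    Good (blow A (e, true) L) Lg (bpi π A (e, true) (π b) q₁) B ∧
      (∀ x ∈ blow A (e, true) L, x.1 ≠ f) ∧
      Good (blow C (f, true) (blow A (e, true) L)) Lg (s3Q π A C b e f q₁ q₂) B := by
  obtain ⟨d1, d2, d3, d4, d5, d6, d7, d8, d9, d10⟩ := S3_degs h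
  have g1 : Good (blow A (e, true) L) Lg (bpi π A (e, true) (π b) q₁) B :=
    blow_good h.good A (e, true) (deg_zero_iff.1 h.hLe) (fun x hx => (h.hAe x hx).1) h.he (π b) q₁
      h.hA h.hcA B le_rfl (by omega)
  have g2 : ∀ x ∈ blow A (e, true) L, x.1 ≠ f := by
    apply deg_zero_iff.1
    rw [blow_deg_other A (e, true) L f (fun hfe => h.hef hfe.symm)]
    exact h.hLf
  refine ⟨g1, g2, ?_⟩
  unfold s3Q
  refine blow_good g1 C (f, true) g2 (fun x hx => (h.hCe x hx).2) h.hf (π b) q₂ ?_ h.hcC B le_rfl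
    (by omega)
  intro x hx
  have hxA : x ∉ A := fun hxA => (Finset.disjoint_left.1 h.hAC hxA) hx
  have hxe : x.1 ≠ e := (h.hCe x hx).1
  have h1 : x ≠ inv (e, true) := by
    rintro rfl
    exact hxe rfl
  have h2 : x ≠ (e, true) := by
    rintro rfl
    exact hxe rfl
  unfold bpi
  rw [if_neg (by tauto), if_neg h2]
  exact h.hC x hx
end

-- S3_sep
section
theorem S3_sep {L : List (Z N)} {Lg : Finset (Fin N)} {π : Z N → ℕ} {B : ℕ} {b : Z N}
    {A C : Finset (Z N)} {e f : Fin N} {q₁ q₂ κ : ℕ} (h : S3H L Lg π B b A C e f q₁ q₂ κ) :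
    s3Q π A C b e f q₁ q₂ b = π b ∧ s3Q π A C b e f q₁ q₂ (inv b) ≠ π b := by
  obtain ⟨_, _, _, hdeg, hbe, hbf, _, _, _, _⟩ := S3_degs h
  have n1 : ∀ (x : Z N) (g : Fin N), x.1 = b.1 → b.1 ≠ g → x ≠ (g, true) ∧ x ≠ inv (g, true) := by
    intro x g hx hg
    constructor
    · intro hh
      apply hg
      rw [← hx, hh]
    · intro hh
      apply hg
      rw [← hx, hh]
      rfl
  unfold s3Q bpi
  constructor
  · obtain ⟨a1, a2⟩ := n1 b f rfl hbf
    obtain ⟨a3, a4⟩ := n1 b e rfl hbe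
    rw [if_neg (not_or.mpr ⟨h.hbC, a2⟩), if_neg a1, if_neg (not_or.mpr ⟨h.hbA, a4⟩), if_neg a3]
  · obtain ⟨a1, a2⟩ := n1 (inv b) f rfl hbf
    obtain ⟨a3, a4⟩ := n1 (inv b) e rfl hbe
    by_cases hC : inv b ∈ C
    · rw [if_pos (Or.inl hC)]
      exact (h.hq₂ b).symm
    · rw [if_neg (not_or.mpr ⟨hC, a2⟩), if_neg a1]
      by_cases hA : inv b ∈ A
      · rw [if_pos (Or.inl hA)]
        exact (h.hq₁ b).symm
      · rw [if_neg (not_or.mpr ⟨hA, a4⟩), if_neg a3]
        intro hp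
        rcases h.hcov (inv b) hp (Or.inl hdeg) with h1 | h1 | h1
        · exact inv_ne b h1
        · exact hA h1
        · exact hC h1
end

-- S3_good3
section
theorem S3_good3 {L : List (Z N)} {Lg : Finset (Fin N)} {π : Z N → ℕ} {B : ℕ} {b : Z N}
    {A C : Finset (Z N)} {e f : Fin N} {q₁ q₂ κ : ℕ} (h : S3H L Lg π B b A C e f q₁ q₂ κ) :
    Good (s3L A C b e f L) Lg (s3P π A C b e f q₁ q₂) B := by
  obtain ⟨_, _, hg⟩ := S3_good2 h
  obtain ⟨h1, h2⟩ := S3_sep h
  have hne : s3Q π A C b e f q₁ q₂ (inv b) ≠ s3Q π A C b e f q₁ q₂ (inv (inv b)) := by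
    rw [inv_inv, h1]
    exact h2
  exact coll_good hg (inv b) hne
end

-- S3_orb
theorem S3_orb {u : FreeGroup (Fin N)} {L : List (Z N)} {Lg : Finset (Fin N)} {π : Z N → ℕ} {B : ℕ} {b : Z N}
    {A C : Finset (Z N)} {e f : Fin N} {q₁ q₂ κ : ℕ} (h : S3H L Lg π B b A C e f q₁ q₂ κ) (ho : Orb u L) :
    Orb u (s3L A C b e f L) := by
  obtain ⟨_, hf', hg2⟩ := S3_good2 h
  obtain ⟨hb1, hb2⟩ := S3_sep h
  have h1 := blow_orb ho A (e, true) (deg_zero_iff.1 h.hLe)
  have h2 := blow_orb h1 C (f, true) hf'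
  have h3 : s3Q π A C b e f q₁ q₂ (inv b) ≠ s3Q π A C b e f q₁ q₂ (inv (inv b)) := by
    rw [inv_inv, hb1]; exact hb2
  exact coll_orb h2 (inv b) h3 hg2.ne hg2.tight hg2.path

-- S3_rel
section
theorem S3_rel {L : List (Z N)} {Lg : Finset (Fin N)} {π : Z N → ℕ} {B : ℕ} {b : Z N}
    {A C : Finset (Z N)} {e f : Fin N} {q₁ q₂ κ : ℕ} (h : S3H L Lg π B b A C e f q₁ q₂ κ) :
    Rel (s3L A C b e f L) L := by
  obtain ⟨_, hf, hG⟩ := S3_good2 h
  obtain ⟨hs1, hs2⟩ := S3_sep h
  have h1 := blow_conj A (e, true) L (deg_zero_iff.1 h.hLe)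
  have h2 := blow_conj C (f, true) (blow A (e, true) L) hf
  have h3 := coll_conj (L := blow C (f, true) (blow A (e, true) L))
    (π := s3Q π A C b e f q₁ q₂) (inv b)
    (by rw [inv_inv, hs1]; exact hs2) hG.ne hG.tight hG.path
  exact Rel_of3 h1 h2 h3
end

-- S3_deg3
section
theorem S3_deg3 {L : List (Z N)} {Lg : Finset (Fin N)} {π : Z N → ℕ} {B : ℕ} {b : Z N}
    {A C : Finset (Z N)} {e f : Fin N} {q₁ q₂ κ : ℕ} (h : S3H L Lg π B b A C e f q₁ q₂ κ) :
    deg (s3L A C b e f L) b.1 = 0 ∧ deg (s3L A C b e f L) e = cap L A ∧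
      deg (s3L A C b e f L) f = cap L C ∧
      (∀ i, i ≠ b.1 → i ≠ e → i ≠ f → deg (s3L A C b e f L) i = deg L i) ∧
      (s3L A C b e f L).length ≤ L.length + 2 * κ := by
  obtain ⟨hcA, hcC, hdb, hb0, hbe, hbf, hcA', hcC', hdB, hcap⟩ := S3_degs h
  have hLe : ∀ x ∈ L, x.1 ≠ e := deg_zero_iff.1 h.hLe
  have h2 : ∀ x ∈ blow A (e, true) L, x.1 ≠ f := (S3_good2 h).2.1
  have hother : ∀ i, i ≠ e → i ≠ f →
      deg (blow C (f, true) (blow A (e, true) L)) i = deg L i := by
    intro i hie hif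
    rw [blow_deg_other C (f, true) (blow A (e, true) L) i hif,
      blow_deg_other A (e, true) L i hie]
  have hse : deg (blow C (f, true) (blow A (e, true) L)) e = cap L A := by
    rw [blow_deg_other C (f, true) (blow A (e, true) L) e h.hef]
    exact blow_deg_self A (e, true) L hLe
  have hsf : deg (blow C (f, true) (blow A (e, true) L)) f = cap L C := by
    have h3 := blow_deg_self C (f, true) (blow A (e, true) L) h2
    rw [hcap] at h3
    exact h3
  have hlen := coll_length b.1 (blow C (f, true) (blow A (e, true) L))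
  rw [hother b.1 hbe hbf, blow_length, blow_length, hcap] at hlen
  have hk := h.hk
  refine ⟨?_, ?_, ?_, ?_, ?_⟩
  · exact coll_deg_self b.1 _
  · unfold s3L
    rw [coll_deg_other b.1 e (Ne.symm hbe), hse]
  · unfold s3L
    rw [coll_deg_other b.1 f (Ne.symm hbf), hsf]
  · intro i hib hie hif
    unfold s3L
    rw [coll_deg_other b.1 i hib, hother i hie hif]
  · unfold s3L
    omega
end

-- S3_ms1
section
theorem S3_ms1 {L : List (Z N)} {Lg : Finset (Fin N)} {π : Z N → ℕ} {B : ℕ} {b : Z N}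
    {A C : Finset (Z N)} {e f : Fin N} {q₁ q₂ κ : ℕ} (h : S3H L Lg π B b A C e f q₁ q₂ κ) :
    ms1 Lg (s3P π A C b e f q₁ q₂) ≤ ms1 Lg π := by
  refine ms1_retract (fun n => if n = q₁ ∨ n = q₂ then π b else n) ?_
  intro i hi
  obtain ⟨x, hx⟩ : ∃ x : Z N, x = (i, true) := ⟨_, rfl⟩
  rw [← hx]
  have hx1 : x.1 ∈ Lg := by rw [hx]; exact hi
  have hxb : x ≠ b := fun h' => h.hb (h' ▸ hx1)
  have hxe1 : x ≠ (e, true) := fun h' => h.he (by rw [h'] at hx1; exact hx1)
  have hxe2 : x ≠ inv (e, true) := fun h' => h.he (by rw [h'] at hx1; exact hx1)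
  have hxf1 : x ≠ (f, true) := fun h' => h.hf (by rw [h'] at hx1; exact hx1)
  have hxf2 : x ≠ inv (f, true) := fun h' => h.hf (by rw [h'] at hx1; exact hx1)
  have hval : s3Q π A C b e f q₁ q₂ x = if x ∈ C then q₂ else if x ∈ A then q₁ else π x := by
    simp only [s3Q, bpi, hxe1, hxe2, hxf1, hxf2, or_false, if_false]
  have hne : s3Q π A C b e f q₁ q₂ x ≠ π b := by
    rw [hval]
    split_ifs with h1 h2
    · exact fun h' => h.hq₂ b h'.symm
    · exact fun h' => h.hq₁ b h'.symm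
    · intro h'
      rcases h.hcov x h' (Or.inr hx1) with h3 | h3 | h3
      · exact hxb h3
      · exact h2 h3
      · exact h1 h3
  have hinv : inv (inv b) = b := by simp [inv]
  have hP : s3P π A C b e f q₁ q₂ x = s3Q π A C b e f q₁ q₂ x := by
    simp only [s3P, cpi]
    rw [hinv, (S3_sep h).1, if_neg hne]
  show (if s3P π A C b e f q₁ q₂ x = q₁ ∨ s3P π A C b e f q₁ q₂ x = q₂ then π b
    else s3P π A C b e f q₁ q₂ x) = π x
  rw [hP, hval]
  split_ifs with h1 h2 h3 h4 h5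
  all_goals first
    | exact (h.hC x h1).symm
    | exact (h.hA x h3).symm
    | exact absurd h5 (not_or.2 ⟨h.hq₁ x, h.hq₂ x⟩)
    | (exfalso; simp_all; done)
    | rfl
end

-- S3_vals
section
theorem S3_vals_aux_S3_vals (π : Z N → ℕ) (A C : Finset (Z N)) (b : Z N) (e f : Fin N) (q₁ q₂ : ℕ) (x : Z N) :
    s3Q π A C b e f q₁ q₂ x = q₁ ∨ s3Q π A C b e f q₁ q₂ x = q₂ ∨
      ∃ y, s3Q π A C b e f q₁ q₂ x = π y := by
  unfold s3Q bpi
  split_ifs
  · exact Or.inr (Or.inl rfl)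
  · exact Or.inr (Or.inr ⟨b, rfl⟩)
  · exact Or.inl rfl
  · exact Or.inr (Or.inr ⟨b, rfl⟩)
  · exact Or.inr (Or.inr ⟨x, rfl⟩)

theorem S3_vals {L : List (Z N)} {Lg : Finset (Fin N)} {π : Z N → ℕ} {B : ℕ} {b : Z N}
    {A C : Finset (Z N)} {e f : Fin N} {q₁ q₂ κ : ℕ} (h : S3H L Lg π B b A C e f q₁ q₂ κ) (x : Z N) :
    s3P π A C b e f q₁ q₂ x = q₁ ∨ s3P π A C b e f q₁ q₂ x = q₂ ∨
      ∃ y, s3P π A C b e f q₁ q₂ x = π y := by
  unfold s3P cpi
  by_cases hx : s3Q π A C b e f q₁ q₂ x = s3Q π A C b e f q₁ q₂ (inv (inv b))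
  · simp only [if_pos hx]
    exact S3_vals_aux_S3_vals π A C b e f q₁ q₂ (inv b)
  · simp only [if_neg hx]
    exact S3_vals_aux_S3_vals π A C b e f q₁ q₂ x
end

-- pull_image
section
theorem pull_image (A : Finset (Z N)) : pull (A.image emb) = A := by
  ext x
  rw [mem_pull, Finset.mem_image]
  constructor
  · rintro ⟨y, hy, hyx⟩
    rwa [← emb_inj.1 hyx]
  · intro hx
    exact ⟨x, hx, rfl⟩
end

-- closed_image
section
theorem closed_image {Lg : Finset (Fin N)} {A : Finset (Z N)} (h : Closed Lg A) :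
    Closed (Lg.map Fin.castSuccEmb) (A.image emb) := by
  intro x hx hx1
  obtain ⟨y, hy, rfl⟩ := Finset.mem_image.mp hx
  obtain ⟨i, hi, hi2⟩ := Finset.mem_map.mp hx1
  have h3 : y.1 = i := by
    have h4 : i.castSucc = y.1.castSucc := hi2
    exact (Fin.castSucc_injective N h4).symm
  rw [inv_emb]
  exact Finset.mem_image_of_mem _ (h y hy (h3 ▸ hi))
end

-- embP_emb
section
theorem embP_emb (π : Z N → ℕ) (x : Z N) : embP π (emb x) = π x := by
  unfold embP emb
  simp
end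

-- embP_lt
section
theorem embP_lt {π : Z N → ℕ} (hN : 0 < N) (h : ∀ x, π x < 2 * N) (x : Z (N + 1)) :
    embP π x < 2 * N := by
  unfold embP
  split_ifs with hx
  · exact h _
  · omega
end

-- emb_cases
section
theorem emb_cases (x : Z (N + 1)) : x.1 = Fin.last N ∨ ∃ y : Z N, x = emb y := by
  rcases Fin.eq_castSucc_or_eq_last x.1 with ⟨i, hi⟩ | h
  · right
    exact ⟨(i, x.2), Prod.ext hi rfl⟩
  · exact Or.inl h
end

-- fast_step
section
theorem fast_step {r B D : ℕ} {u : FreeGroup (Fin N)} {L : List (Z N)} {Lg : Finset (Fin N)}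
    {π : Z N → ℕ} (hS : Sta r B L Lg π) (ho : Orb u L) (h : ¬ NoFast L Lg π D) :
    ∃ L₁ : List (Z N), Sta r B L₁ Lg π ∧ Orb u L₁ ∧ L₁.length + D ≤ L.length ∧
      ms2 L₁ Lg = ms2 L Lg ∧ Rel L₁ L := by
  classical
  unfold NoFast at h
  push Not at h
  obtain ⟨a, ha, A, haA, haA', hA, hc⟩ := h
  obtain ⟨e, he, heL⟩ := hS.free
  have hne : ∀ i, i ∉ Lg → i ≠ a.1 := fun i hi h => hi (h ▸ ha)
  refine ⟨wh A a L, ⟨wh_good hS.good A a ha haA haA' hA e he heL, hS.card,
    ⟨e, he, by rw [wh_deg_other _ _ _ _ (hne e he), heL]⟩, hS.bd⟩, wh_orb ho A a haA haA', ?_,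
    ms2_congr fun i hi => wh_deg_other _ _ _ _ (hne i hi), Rel_of1 (wh_conj A a haA haA' L)⟩
  rw [length_eq_sum_deg, length_eq_sum_deg,
    ← Finset.add_sum_erase _ (fun i => deg (wh A a L) i) (Finset.mem_univ a.1),
    ← Finset.add_sum_erase _ (fun i => deg L i) (Finset.mem_univ a.1)]
  have h1 : ∑ i ∈ Finset.univ.erase a.1, deg (wh A a L) i
      = ∑ i ∈ Finset.univ.erase a.1, deg L i :=
    Finset.sum_congr rfl fun i hi => wh_deg_other _ _ _ _ (Finset.ne_of_mem_erase hi)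
  rw [h1, wh_deg_self]
  omega
end

-- S1_step
section
theorem S1_step {r B K : ℕ} {u : FreeGroup (Fin N)} {L : List (Z N)} {Lg : Finset (Fin N)}
    {π : Z N → ℕ} (hS : Sta r B L Lg π) (ho : Orb u L) (hBK : B ≤ K) (h : ¬ NoS1 L Lg K) :
    ∃ (L₁ : List (Z (N + 1))) (Lg₁ : Finset (Fin (N + 1))) (π₁ : Z (N + 1) → ℕ),
      Sta r K L₁ Lg₁ π₁ ∧ Orb (embF u) L₁ ∧ L₁.length ≤ L.length ∧
      ms1 Lg₁ π₁ < ms1 Lg π ∧ Rel L₁ (embL L) := by
  have h' : ∃ i ∈ Lg, deg L i ≤ K := by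
    by_contra hcon
    apply h
    intro i hi
    by_contra hlt
    exact hcon ⟨i, hi, not_lt.1 hlt⟩
  obtain ⟨i, hi, hd⟩ := h'
  have hN : 0 < N := lt_of_le_of_lt (Nat.zero_le _) i.2
  refine ⟨embL L, (Lg.erase i).map Fin.castSuccEmb, embP π, ⟨?_, ?_, ?_, ?_⟩, orb_embL ho, ?_, ?_,
    Rel_refl (Fin.last N, true) _⟩
  · exact good_embL (embP_emb π) (S1_gen hS.good hBK hd)
  · rw [Finset.card_map]
    exact (Finset.card_erase_le).trans hS.card
  · refine ⟨Fin.last N, ?_, deg_embL_last L⟩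
    intro hmem
    rw [Finset.mem_map] at hmem
    obtain ⟨j, _, hj⟩ := hmem
    exact (Fin.castSucc_lt_last j).ne hj
  · intro x
    have := embP_lt hN hS.bd x
    omega
  · rw [length_embL]
  · rw [ms1_emb]
    exact ms1_erase π hi
end

-- S2_step
section
theorem S2_step {r B K : ℕ} {u : FreeGroup (Fin N)} {L : List (Z N)} {Lg : Finset (Fin N)}
    {π : Z N → ℕ} (hS : Sta r B L Lg π) (ho : Orb u L) (hBK : B ≤ K) (h : ¬ NoS2 L Lg π K) :
    ∃ (L₁ : List (Z (N + 1))) (Lg₁ : Finset (Fin (N + 1))) (π₁ : Z (N + 1) → ℕ),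
      Sta r K L₁ Lg₁ π₁ ∧ Orb (embF u) L₁ ∧ L₁.length ≤ L.length + K ∧
      ms1 Lg₁ π₁ < ms1 Lg π ∧ Rel L₁ (embL L) := by
  unfold NoS2 at h
  push Not at h
  obtain ⟨p, A, hA, hcl, ⟨x, hxA, hxL⟩, ⟨y, hyA, hyp, hyL⟩, hcap⟩ := h
  have hN : 0 < N := lt_of_le_of_lt (Nat.zero_le _) x.1.isLt
  have hmem : ∀ i : Fin N, i ∈ Lg → i.castSucc ∈ Lg.map Fin.castSuccEmb := by
    intro i hi
    rw [Finset.mem_map]
    exact ⟨i, hi, rfl⟩
  have hmem' : ∀ i : Fin N, i.castSucc ∈ Lg.map Fin.castSuccEmb → i ∈ Lg := by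
    intro i hi
    rw [Finset.mem_map] at hi
    obtain ⟨j, hj, hji⟩ := hi
    have : j = i := Fin.castSucc_injective N hji
    rw [← this]
    exact hj
  have hlast : Fin.last N ∉ Lg.map Fin.castSuccEmb := by
    rw [Finset.mem_map]
    rintro ⟨j, _, hj⟩
    exact (Fin.castSucc_ne_last j) hj
  obtain ⟨g1, g2, g3, g4, g5, g6, g7⟩ := S2_gen (N := N + 1) (u := embF u) (L := embL L)
    (Lg := Lg.map Fin.castSuccEmb) (π := embP π) (B := B) (K := K)
    (good_embL (embP_emb π) hS.good) (orb_embL ho) hBK (Fin.last N) hlast (deg_embL_last L)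
    p (2 * N) (A.image emb)
    (by
      intro z hz
      obtain ⟨w, hw, rfl⟩ := Finset.mem_image.1 hz
      rw [embP_emb]
      exact hA w hw)
    (by
      intro z hz
      obtain ⟨w, hw, rfl⟩ := Finset.mem_image.1 hz
      exact emb_fst_ne_last w)
    (closed_image hcl)
    ⟨emb x, Finset.mem_image_of_mem _ hxA, hmem _ hxL⟩
    ⟨emb y, by
      intro hy
      obtain ⟨w, hw, hwy⟩ := Finset.mem_image.1 hy
      rw [emb_injective hwy] at hw
      exact hyA hw, by rw [embP_emb]; exact hyp, hmem _ hyL⟩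
    (by rw [cap_embL, pull_image]; exact hcap)
    (fun z => (embP_lt hN hS.bd z).ne)
  refine ⟨_, _, _, ⟨g1, ?_, ?_, ?_⟩, g2, ?_, ?_, g4⟩
  · rw [Finset.card_map]
    exact hS.card
  · obtain ⟨e0, he0, hd0⟩ := hS.free
    refine ⟨e0.castSucc, fun h => he0 (hmem' _ h), ?_⟩
    rw [g6 _ (Fin.castSucc_ne_last e0), deg_embL, hd0]
  · intro z
    rcases g7 z with h | ⟨w, hw⟩
    · rw [h]
      omega
    · rw [hw]
      have := embP_lt hN hS.bd w
      omega
  · rw [length_embL] at g5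
    exact g5
  · rw [ms1_emb] at g3
    exact g3
end

-- S3_step
section
theorem S3_step {r B κ : ℕ} {u : FreeGroup (Fin N)} {L : List (Z N)} {Lg : Finset (Fin N)}
    {π : Z N → ℕ} (hS : Sta r B L Lg π) (ho : Orb u L) (h : ¬ NoS3 L Lg π κ) :
    ∃ (L₁ : List (Z (N + 1))) (Lg₁ : Finset (Fin (N + 1))) (π₁ : Z (N + 1) → ℕ),
      Sta r B L₁ Lg₁ π₁ ∧ Orb (embF u) L₁ ∧ L₁.length ≤ L.length + 2 * κ ∧
      ms1 Lg₁ π₁ ≤ ms1 Lg π ∧ ms2 L₁ Lg₁ < ms2 L Lg ∧ Rel L₁ (embL L) := by
  classical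
  obtain ⟨hg, hcard, ⟨e0, he0L, he0d⟩, hbd⟩ := hS
  unfold NoS3 at h
  push Not at h
  obtain ⟨b, A, C, hb, hACu, hACd, hclA, hclC, hk, h1, h2⟩ := h
  have hN : 0 < N := lt_of_le_of_lt (Nat.zero_le _) b.1.isLt
  set A0 : Finset (Z N) := A.filter (fun x => x.1 ≠ e0) with hA0
  set C0 : Finset (Z N) := C.filter (fun x => x.1 ≠ e0) with hC0
  have hA0' : ∀ x : Z N, 0 < deg L x.1 → (x ∈ A0 ↔ x ∈ A) := by
    intro x hx
    rw [hA0, Finset.mem_filter]
    constructor
    · exact fun h => h.1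
    · intro h
      refine ⟨h, ?_⟩
      intro he
      rw [he, he0d] at hx
      exact lt_irrefl _ hx
  have hC0' : ∀ x : Z N, 0 < deg L x.1 → (x ∈ C0 ↔ x ∈ C) := by
    intro x hx
    rw [hC0, Finset.mem_filter]
    constructor
    · exact fun h => h.1
    · intro h
      refine ⟨h, ?_⟩
      intro he
      rw [he, he0d] at hx
      exact lt_irrefl _ hx
  have hb' : ∀ x : Z N, 0 < deg L x.1 → (x ∈ ({b} : Finset (Z N)) ↔ x ∈ ({b} : Finset (Z N))) :=
    fun x _ => Iff.rfl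
  have hpb : pull ({emb b} : Finset (Z (N + 1))) = {b} := by
    rw [← Finset.image_singleton, pull_image]
  have t1 : tn (embL L) (A0.image emb) (C0.image emb) = tn L A C := by
    rw [tn_embL, pull_image, pull_image]
    exact tn_congr hA0' hC0'
  have t2 : tn (embL L) (A0.image emb) {emb b} = tn L A {b} := by
    rw [tn_embL, pull_image, hpb]
    exact tn_congr hA0' hb'
  have t3 : tn (embL L) (C0.image emb) {emb b} = tn L C {b} := by
    rw [tn_embL, pull_image, hpb]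
    exact tn_congr hC0' hb'
  have hAsub : ∀ y ∈ A, y ≠ b ∧ π y = π b := by
    intro y hy
    have : y ∈ (blk π (π b)).erase b := by rw [← hACu]; exact Finset.mem_union_left _ hy
    rw [Finset.mem_erase, blk, Finset.mem_filter] at this
    exact ⟨this.1, this.2.2⟩
  have hCsub : ∀ y ∈ C, y ≠ b ∧ π y = π b := by
    intro y hy
    have : y ∈ (blk π (π b)).erase b := by rw [← hACu]; exact Finset.mem_union_right _ hy
    rw [Finset.mem_erase, blk, Finset.mem_filter] at this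
    exact ⟨this.1, this.2.2⟩
  have hmapmem : ∀ i : Fin N, i.castSucc ∈ Lg.map Fin.castSuccEmb ↔ i ∈ Lg := by
    intro i
    rw [Finset.mem_map]
    constructor
    · rintro ⟨j, hj, hji⟩
      have : j = i := Fin.castSucc_injective _ hji
      exact this ▸ hj
    · intro hi
      exact ⟨i, hi, rfl⟩
  have hlast : Fin.last N ∉ Lg.map Fin.castSuccEmb := by
    rw [Finset.mem_map]
    rintro ⟨j, _, hj⟩
    exact (Fin.castSucc_ne_last j) hj
  have H : S3H (embL L) (Lg.map Fin.castSuccEmb) (embP π) B (emb b) (A0.image emb) (C0.image emb)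
      (Fin.last N) e0.castSucc (2 * N) (2 * N + 1) κ :=
    { good := good_embL (embP_emb π) hg
      hb := by
        rw [show (emb b).1 = b.1.castSucc from rfl, hmapmem]
        exact hb
      he := hlast
      hf := by rw [hmapmem]; exact he0L
      hef := (Fin.castSucc_ne_last e0).symm
      hLe := deg_embL_last L
      hLf := by rw [deg_embL]; exact he0d
      hA := by
        intro x hx
        rw [Finset.mem_image] at hx
        obtain ⟨y, hy, rfl⟩ := hx
        rw [embP_emb, embP_emb]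
        exact (hAsub y (Finset.mem_filter.mp hy).1).2
      hC := by
        intro x hx
        rw [Finset.mem_image] at hx
        obtain ⟨y, hy, rfl⟩ := hx
        rw [embP_emb, embP_emb]
        exact (hCsub y (Finset.mem_filter.mp hy).1).2
      hbA := by
        intro hx
        rw [Finset.mem_image] at hx
        obtain ⟨y, hy, hyb⟩ := hx
        exact (hAsub y (Finset.mem_filter.mp hy).1).1 (emb_injective hyb)
      hbC := by
        intro hx
        rw [Finset.mem_image] at hx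
        obtain ⟨y, hy, hyb⟩ := hx
        exact (hCsub y (Finset.mem_filter.mp hy).1).1 (emb_injective hyb)
      hAC := by
        rw [Finset.disjoint_left]
        intro x hx hx'
        rw [Finset.mem_image] at hx hx'
        obtain ⟨y, hy, rfl⟩ := hx
        obtain ⟨z, hz, hzy⟩ := hx'
        have : z = y := emb_injective hzy
        subst this
        exact Finset.disjoint_left.mp hACd (Finset.mem_filter.mp hy).1 (Finset.mem_filter.mp hz).1
      hAe := by
        intro x hx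
        rw [Finset.mem_image] at hx
        obtain ⟨y, hy, rfl⟩ := hx
        refine ⟨emb_fst_ne_last y, ?_⟩
        intro he
        exact (Finset.mem_filter.mp hy).2 (Fin.castSucc_injective _ he)
      hCe := by
        intro x hx
        rw [Finset.mem_image] at hx
        obtain ⟨y, hy, rfl⟩ := hx
        refine ⟨emb_fst_ne_last y, ?_⟩
        intro he
        exact (Finset.mem_filter.mp hy).2 (Fin.castSucc_injective _ he)
      hcA := by
        apply closed_image
        intro x hx hxL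
        have h3 := Finset.mem_filter.mp hx
        exact Finset.mem_filter.mpr ⟨hclA x h3.1 hxL, h3.2⟩
      hcC := by
        apply closed_image
        intro x hx hxL
        have h3 := Finset.mem_filter.mp hx
        exact Finset.mem_filter.mpr ⟨hclC x h3.1 hxL, h3.2⟩
      hcov := by
        intro x hx hor
        rcases emb_cases x with hl | ⟨y, rfl⟩
        · exfalso
          rcases hor with h3 | h3
          · rw [hl, deg_embL_last] at h3
            exact lt_irrefl _ h3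
          · rw [hl] at h3
            exact hlast h3
        · rw [embP_emb, embP_emb] at hx
          rw [show (emb y).1 = y.1.castSucc from rfl, deg_embL, hmapmem] at hor
          have hye : y.1 ≠ e0 := by
            intro he
            rcases hor with h3 | h3
            · rw [he, he0d] at h3
              exact lt_irrefl _ h3
            · rw [he] at h3
              exact he0L h3
          by_cases hyb : y = b
          · left; rw [hyb]
          · right
            have hm : y ∈ A ∪ C := by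
              rw [hACu, Finset.mem_erase, blk, Finset.mem_filter]
              exact ⟨hyb, Finset.mem_univ _, hx⟩
            rw [Finset.mem_union] at hm
            rcases hm with hm | hm
            · left
              exact Finset.mem_image_of_mem _ (Finset.mem_filter.mpr ⟨hm, hye⟩)
            · right
              exact Finset.mem_image_of_mem _ (Finset.mem_filter.mpr ⟨hm, hye⟩)
      hk := by rw [t1]; exact hk
      h1 := by rw [t1, t2]; exact h1
      h2 := by rw [t1, t3]; exact h2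
      hq₁ := fun x => (embP_lt hN hbd x).ne
      hq₂ := fun x => by
        have := embP_lt hN hbd x
        omega
      hq := by omega }
  obtain ⟨d1, d2, d3, d4, d5⟩ := S3_deg3 H
  obtain ⟨g1, g2, g3, g4, g5, g6, g7, g8, g9, g10⟩ := S3_degs H
  refine ⟨s3L (A0.image emb) (C0.image emb) (emb b) (Fin.last N) e0.castSucc (embL L),
    Lg.map Fin.castSuccEmb,
    s3P (embP π) (A0.image emb) (C0.image emb) (emb b) (Fin.last N) e0.castSucc (2 * N) (2 * N + 1),
    ⟨S3_good3 H, ?_, ⟨(emb b).1, H.hb, d1⟩, ?_⟩, S3_orb H (orb_embL ho), ?_, ?_, ?_, S3_rel H⟩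
  · rw [Finset.card_map]; exact hcard
  · intro x
    rcases S3_vals H x with hv | hv | ⟨y, hv⟩
    · rw [hv]; omega
    · rw [hv]; omega
    · rw [hv]
      have := embP_lt hN hbd y
      omega
  · rw [length_embL] at d5
    exact d5
  · have h3 := S3_ms1 H
    rw [ms1_emb] at h3
    exact h3
  · have h3 := ms2_S3 (emb b).1 (Fin.last N) e0.castSucc g5 g6 H.hef H.hb H.he H.hf H.hLe H.hLf d1
      (by rw [d2]; exact g7) (by rw [d3]; exact g8) d4
    rw [ms2_emb] at h3
    exact h3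
end

-- step
section
theorem step {r κ D B : ℕ} (u : FreeGroup (Fin N)) (hu1 : u ≠ 1) (hκ : u.norm ≤ κ)
    {L : List (Z N)} {Lg : Finset (Fin N)} {π : Z N → ℕ} (hS : Sta r B L Lg π) (ho : Orb u L)
    (hns : NoSlide L Lg π) (hne : Lg.Nonempty) :
    (∃ L₁ : List (Z N), Sta r B L₁ Lg π ∧ Orb u L₁ ∧ L₁.length + D ≤ L.length ∧
      ms2 L₁ Lg = ms2 L Lg ∧ Rel L₁ L) ∨
    (∃ (L₁ : List (Z (N + 1))) (Lg₁ : Finset (Fin (N + 1))) (π₁ : Z (N + 1) → ℕ),
      Sta r (B + 2 * D + 2 * κ) L₁ Lg₁ π₁ ∧ Orb (embF u) L₁ ∧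
      L₁.length ≤ L.length + B + 2 * D + 4 * κ ∧
      (ms1 Lg₁ π₁ < ms1 Lg π ∨ (ms1 Lg₁ π₁ = ms1 Lg π ∧ ms2 L₁ Lg₁ < ms2 L Lg)) ∧
      Rel L₁ (embL L)) := by
  by_cases hF : NoFast L Lg π D
  · by_cases h1 : NoS1 L Lg (B + 2 * D + 2 * κ)
    · by_cases h2 : NoS2 L Lg π (B + 2 * D + 2 * κ)
      · by_cases h3 : NoS3 L Lg π κ
        · exfalso
          have h := mainClaim hS.good u ho hu1 hκ hF h1 h2 h3 hns
          rw [h] at hne
          exact Finset.not_nonempty_empty hne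
        · right
          obtain ⟨L₁, Lg₁, π₁, hS₁, ho₁, hl, hm1, hm2, hr⟩ := S3_step hS ho h3
          have hG := hS₁.good
          refine ⟨L₁, Lg₁, π₁,
            ⟨⟨hG.ne, hG.tight, hG.path, hG.loop, fun i hi => le_trans (hG.small i hi) (by omega)⟩,
              hS₁.card, hS₁.free, hS₁.bd⟩, ho₁, by omega, ?_, hr⟩
          rcases lt_or_eq_of_le hm1 with h | h
          · exact Or.inl h
          · exact Or.inr ⟨h, hm2⟩
      · right
        obtain ⟨L₁, Lg₁, π₁, hS₁, ho₁, hl, hm1, hr⟩ :=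
          S2_step hS ho (K := B + 2 * D + 2 * κ) (by omega) h2
        exact ⟨L₁, Lg₁, π₁, hS₁, ho₁, by omega, Or.inl hm1, hr⟩
    · right
      obtain ⟨L₁, Lg₁, π₁, hS₁, ho₁, hl, hm1, hr⟩ :=
        S1_step hS ho (K := B + 2 * D + 2 * κ) (by omega) h1
      exact ⟨L₁, Lg₁, π₁, hS₁, ho₁, by omega, Or.inl hm1, hr⟩
  · left
    exact fast_step hS ho hF
end

end PW.M5a
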