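import Pool.Agent.Helper192.PW.Emb

set_option autoImplicit false

/-! MP_dab459_al, module M5a: states and measures (words in `F_N`, `N` variable). -/

namespace PW

variable {N : ℕ}

/-- classes of large letters -/
def Vl (Lg : Finset (Fin N)) (π : Z N → ℕ) : Finset ℕ := Lg.image (fun i => π (i, true))

/-- first component of the measure -/
def ms1 (Lg : Finset (Fin N)) (π : Z N → ℕ) : ℕ := 2 * Lg.card - (Vl Lg π).card

/-- second component of the measure: the used small letters -/
def ms2 (L : List (Z N)) (Lg : Finset (Fin N)) : ℕ :=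
  ∑ i ∈ Finset.univ.filter (fun i => i ∉ Lg ∧ 0 < deg L i), 3 ^ deg L i

/-- a state: a good list, at most `r` large letters, one unused small letter, and the classes are
numbered by numbers less than `2 * N` -/
structure Sta (r B : ℕ) (L : List (Z N)) (Lg : Finset (Fin N)) (π : Z N → ℕ) : Prop where
  good : Good L Lg π B
  card : Lg.card ≤ r
  free : ∃ e, e ∉ Lg ∧ deg L e = 0
  bd : ∀ x, π x < 2 * N

/-- `L₁` is obtained from `L`, up to conjugacy, by (at most) three elementary automorphisms -/
def Rel (L₁ L : List (Z N)) : Prop :=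
  ∃ (A₁ A₂ A₃ : Finset (Z N)) (e₁ e₂ e₃ : Z N),
    IsConj (FreeGroup.mk L₁) (aut A₃ e₃ (aut A₂ e₂ (aut A₁ e₁ (FreeGroup.mk L))))

/-- classes in `F_{N+1}` -/
def embP (π : Z N → ℕ) : Z (N + 1) → ℕ :=
  fun x => if h : (x.1 : ℕ) < N then π (⟨x.1, h⟩, x.2) else 0

end PW
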